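import Mathlib

/-!
# The original Collatz permutation: elementary facts on cycles
-/

set_option autoImplicit false

namespace Pool.Agent.H40.COL

open Finset

/-- the original map of Collatz on the positive integers -/
structure IsF (f : ℕ → ℕ) : Prop where
  h0 : ∀ n, 1 ≤ n → f (3 * n) = 2 * n
  h1 : ∀ n, 1 ≤ n → f (3 * n - 1) = 4 * n - 1
  h2 : ∀ n, 1 ≤ n → f (3 * n - 2) = 4 * n - 3

variable {f : ℕ → ℕ}

/-- the three kinds of steps -/
theorem IsF.step (hf : IsF f) {x : ℕ} (hx : 1 ≤ x) :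
    (3 ∣ x ∧ 3 * f x = 2 * x ∧ 2 ∣ f x) ∨
    (¬ 3 ∣ x ∧ (3 * f x = 4 * x + 1 ∨ 3 * f x + 1 = 4 * x) ∧ ¬ 2 ∣ f x) := by
  have h3 : x % 3 = 0 ∨ x % 3 = 1 ∨ x % 3 = 2 := by omega
  rcases h3 with h | h | h
  · left
    obtain ⟨n, hn⟩ : ∃ n, x = 3 * n := ⟨x / 3, by omega⟩
    have h4 := hf.h0 n (by omega)
    rw [← hn] at h4
    refine ⟨by omega, by omega, by omega⟩
  · right
    obtain ⟨n, hn⟩ : ∃ n, x = 3 * n - 2 := ⟨x / 3 + 1, by omega⟩
    have h4 := hf.h2 n (by omega)
    rw [← hn] at h4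
    refine ⟨by omega, Or.inr (by omega), by omega⟩
  · right
    obtain ⟨n, hn⟩ : ∃ n, x = 3 * n - 1 := ⟨x / 3 + 1, by omega⟩
    have h4 := hf.h1 n (by omega)
    rw [← hn] at h4
    refine ⟨by omega, Or.inl (by omega), by omega⟩

theorem IsF.pos (hf : IsF f) {x : ℕ} (hx : 1 ≤ x) : 1 ≤ f x := by
  rcases hf.step hx with ⟨h, h1, _⟩ | ⟨h, h1 | h1, _⟩ <;> omega

theorem IsF.le_two (hf : IsF f) {x : ℕ} (hx : 1 ≤ x) : f x ≤ 2 * x := by
  rcases hf.step hx with ⟨h, h1, _⟩ | ⟨h, h1 | h1, _⟩ <;> omega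

theorem IsF.iter_pos (hf : IsF f) {x : ℕ} (hx : 1 ≤ x) (j : ℕ) : 1 ≤ f^[j] x := by
  induction j with
  | zero => simpa using hx
  | succ j ih => rw [Function.iterate_succ_apply']; exact hf.pos ih

theorem IsF.iter_le (hf : IsF f) {x : ℕ} (hx : 1 ≤ x) (j : ℕ) : f^[j] x ≤ 2 ^ j * x := by
  induction j with
  | zero => simp
  | succ j ih =>
    rw [Function.iterate_succ_apply']
    have := hf.le_two (hf.iter_pos hx j)
    calc f (f^[j] x) ≤ 2 * f^[j] x := this
      _ ≤ 2 * (2 ^ j * x) := by omega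
      _ = 2 ^ (j + 1) * x := by ring

/-! ## The potential of the reversed sequence -/

/-- the potential -/
noncomputable def pot (y : ℕ) : ℝ := 6 * Real.log y + 4 * (padicValNat 2 y : ℝ)

theorem pot_odd {y : ℕ} (h : ¬ 2 ∣ y) : pot y = 6 * Real.log y := by
  unfold pot
  rw [padicValNat.eq_zero_of_not_dvd h]
  simp

theorem log_two_gt : (0.69 : ℝ) < Real.log 2 := by
  have := Real.log_two_gt_d9
  linarith

theorem log_two_lt : Real.log 2 < (0.7 : ℝ) := by
  have := Real.log_two_lt_d9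
  linarith

theorem val_le {y : ℕ} (hy : 1 ≤ y) : (padicValNat 2 y : ℝ) * Real.log 2 ≤ Real.log y := by
  have h1 : 2 ^ padicValNat 2 y ≤ y := Nat.le_of_dvd hy pow_padicValNat_dvd
  have h2 : ((2 : ℝ) ^ padicValNat 2 y) ≤ (y : ℝ) := by exact_mod_cast h1
  have h3 := Real.log_le_log (by positivity) h2
  rwa [Real.log_pow] at h3

theorem pot_le {y : ℕ} (hy : 1 ≤ y) : pot y ≤ 12 * Real.log y := by
  have h1 := val_le hy
  have h2 := log_two_gt
  have h3 : (0 : ℝ) ≤ padicValNat 2 y := Nat.cast_nonneg _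
  have h4 : (0 : ℝ) ≤ Real.log y := Real.log_natCast_nonneg _
  unfold pot
  nlinarith

theorem pot_nonneg (y : ℕ) : 0 ≤ pot y := by
  have h3 : (0 : ℝ) ≤ padicValNat 2 y := Nat.cast_nonneg _
  have h4 : (0 : ℝ) ≤ Real.log y := Real.log_natCast_nonneg _
  unfold pot
  positivity

/-- a reversed descending step -/
theorem pot_down {x y : ℕ} (hx : 1 ≤ x) (h : 3 * y = 2 * x) (h2 : 2 ∣ y) : pot x + 1 ≤ pot y := by
  obtain ⟨n, rfl⟩ := h2
  have hxn : x = 3 * n := by omega
  subst hxn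
  have hn : n ≠ 0 := by omega
  have h3 : padicValNat 2 (3 * n) = padicValNat 2 n := by
    rw [padicValNat.mul (by norm_num) hn]
    have : padicValNat 2 3 = 0 := padicValNat.eq_zero_of_not_dvd (by norm_num)
    rw [this, zero_add]
  have h4 : padicValNat 2 (2 * n) = 1 + padicValNat 2 n := by
    rw [padicValNat.mul (by norm_num) hn, padicValNat_self]
  unfold pot
  rw [h3, h4]
  have hn' : (n : ℝ) ≠ 0 := by exact_mod_cast hn
  push_cast
  rw [Real.log_mul (by norm_num) hn', Real.log_mul (by norm_num) hn']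
  have h5 : Real.log 3 < 1.1 := by
    have : Real.log 3 < 1.1 := by
      rw [Real.log_lt_iff_lt_exp (by norm_num)]
      have h6 : Real.exp 1.1 = Real.exp 1 * Real.exp 0.1 := by
        rw [← Real.exp_add]; norm_num
      rw [h6]
      have h7 := Real.exp_one_gt_d9
      have h8 : (1 : ℝ) + 0.1 + 0.1 ^ 2 / 2 ≤ Real.exp 0.1 :=
        Real.quadratic_le_exp_of_nonneg (by norm_num)
      nlinarith [Real.exp_pos 0.1]
    exact this
  have h6 := log_two_gt
  linarith

/-- a reversed ascending step from an odd number to an odd number -/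
theorem pot_up {x y : ℕ} (hx : 2 ≤ x) (h : 3 * y = 4 * x + 1 ∨ 3 * y + 1 = 4 * x)
    (hxo : ¬ 2 ∣ x) (hyo : ¬ 2 ∣ y) : pot x + 1 ≤ pot y := by
  rw [pot_odd hxo, pot_odd hyo]
  have h1 : 6 * (x : ℝ) ≤ 5 * y := by
    have : 6 * x ≤ 5 * y := by omega
    exact_mod_cast this
  have hx0 : (0 : ℝ) < x := by exact_mod_cast (by omega : 0 < x)
  have h2 : Real.log x ≤ Real.log y + Real.log (5 / 6) := by
    rw [← Real.log_mul (by linarith : (y : ℝ) ≠ 0) (by norm_num)]
    exact Real.log_le_log hx0 (by linarith)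
  have h3 : Real.log (5 / 6 : ℝ) ≤ -(1 / 6) := by
    have := Real.log_le_sub_one_of_pos (show (0 : ℝ) < 5 / 6 by norm_num)
    linarith
  linarith

/-- a reversed ascending step from an odd number to an even number -/
theorem pot_switch {x y : ℕ} (hx : 1 ≤ x) (h : 3 * y = 4 * x + 1 ∨ 3 * y + 1 = 4 * x)
    (hyo : ¬ 2 ∣ y) : pot x ≤ 2 * pot y := by
  rw [pot_odd hyo]
  have h1 : x ≤ y := by omega
  have h2 := pot_le hx
  have h3 : Real.log x ≤ Real.log y :=
    Real.log_le_log (by exact_mod_cast (by omega : 0 < x)) (by exact_mod_cast h1)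
  linarith

open Classical in
/-- **The length of a cycle is bounded by its smallest element and the number of switches.** -/
theorem rev_bound (hf : IsF f) (y : ℕ → ℕ) (k : ℕ) (hy2 : ∀ t, 2 ≤ y t)
    (hy : ∀ t, t < k → f (y (t + 1)) = y t) : ∀ t, t ≤ k →
    (t : ℝ) + pot (y t) ≤
      3 ^ ((range t).filter fun s => 2 ∣ y (s + 1) ∧ ¬ 3 ∣ y (s + 1)).card * pot (y 0) := by
  intro t
  induction t with
  | zero => intro _; simp
  | succ t ih =>
    intro ht
    have ih := ih (by omega)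
    have hst := hf.step (x := y (t + 1)) (by have := hy2 (t + 1); omega)
    rw [hy t (by omega)] at hst
    have hp1 : 1 ≤ pot (y 0) := by
      have h1 := hy2 0
      unfold pot
      have h2 : Real.log 2 ≤ Real.log (y 0) :=
        Real.log_le_log (by norm_num) (by exact_mod_cast h1)
      have h3 := log_two_gt
      have h4 : (0 : ℝ) ≤ padicValNat 2 (y 0) := Nat.cast_nonneg _
      linarith
    have hP0 := pot_nonneg (y 0)
    rw [Finset.range_add_one, Finset.filter_insert]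
    by_cases hsw : 2 ∣ y (t + 1) ∧ ¬ 3 ∣ y (t + 1)
    · rw [if_pos hsw, Finset.card_insert_of_notMem (by simp), pow_succ]
      rcases hst with ⟨h3, _⟩ | ⟨h3, h4, h5⟩
      · exact absurd h3 hsw.2
      · have h6 := pot_switch (x := y (t + 1)) (by have := hy2 (t + 1); omega) h4 h5
        have h7 : (1 : ℝ) ≤ 3 ^ ((range t).filter fun s => 2 ∣ y (s + 1) ∧ ¬ 3 ∣ y (s + 1)).card *
            pot (y 0) := by
          have : (1 : ℝ) ≤ 3 ^ ((range t).filter fun s => 2 ∣ y (s + 1) ∧ ¬ 3 ∣ y (s + 1)).card :=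
            one_le_pow₀ (by norm_num)
          nlinarith
        have h8 : (0 : ℝ) ≤ t := Nat.cast_nonneg _
        have h9 := pot_nonneg (y t)
        push_cast
        nlinarith
    · rw [if_neg hsw]
      have h10 : pot (y (t + 1)) + 1 ≤ pot (y t) := by
        rcases hst with ⟨h3, h4, h5⟩ | ⟨h3, h4, h5⟩
        · exact pot_down (by have := hy2 (t + 1); omega) h4 h5
        · refine pot_up (hy2 (t + 1)) h4 ?_ h5
          intro h; exact hsw ⟨h, h3⟩
      push_cast
      linarith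

end Pool.Agent.H40.COL
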