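import Pool.Agent.H98.ABCR.All

/-!
# Differences of powers of two and three
-/

set_option autoImplicit false

namespace Pool.Agent.H40.COL

open Finset Pool.Agent.H98.ABCR

/-- an infinite set of natural pairs has finite subsets of every size; so a uniform bound on the
finite subsets gives finiteness -/
theorem fin_of_bound {s : Set (ℕ × ℕ)} {C : ℝ} (h : ∀ F : Finset (ℕ × ℕ), (∀ v ∈ F, v ∈ s) →
    (F.card : ℝ) ≤ C) : s.Finite := by
  by_contra hinf
  obtain ⟨F, hF1, hF2⟩ := Set.Infinite.exists_subset_card_eq hinf (⌊C⌋₊ + 1)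
  have h1 := h F fun v hv => hF1 (Finset.mem_coe.mpr hv)
  rw [hF2] at h1
  have h2 := Nat.lt_floor_add_one C
  push_cast at h1
  linarith

/-- the two kinds of exceptional pairs -/
def Exc (δ : ℝ) (a b : ℕ) : Prop :=
  0 < b ∧ Real.log (b : ℝ) ≤ (1 - δ) * Real.log ((a : ℝ) + b)

theorem exc_fin (δ : ℝ) (h0 : 0 < δ) (h1 : δ ≤ 1) :
    {v : ℕ × ℕ | 0 < v.1 ∧ v.1.Coprime v.2 ∧ v.1.primeFactors ⊆ {2, 3} ∧
      (v.1 + v.2).primeFactors ⊆ {2, 3} ∧ Exc δ v.1 v.2}.Finite := by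
  obtain ⟨C, hC, hF⟩ := all_TRE δ h0 h1
  refine fin_of_bound (C := C ^ (({2, 3} : Finset ℕ).card + 1)) fun F hv => ?_
  refine hF {2, 3} F 1 ?_ ?_
  · intro q hq
    simp only [mem_insert, mem_singleton] at hq
    rcases hq with rfl | rfl <;> norm_num
  · intro v hvF
    obtain ⟨ha, hco, hp1, hp2, hb, hle⟩ := hv v hvF
    refine ⟨⟨ha, hb, hco⟩, ?_, ?_⟩
    · intro s hs
      fin_cases s
      · exact hp1
      · exact absurd rfl hs
      · exact hp2
    · have h3 : Real.log (coord v 1) = Real.log (v.2 : ℝ) := rfl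
      rw [h3]
      have h4 : (0 : ℝ) ≤ ∑ q ∈ ({2, 3} : Finset ℕ),
          ((coord v 1).factorization q : ℝ) * Real.log q :=
        Finset.sum_nonneg fun q _ => mul_nonneg (Nat.cast_nonneg _) (Real.log_natCast_nonneg _)
      linarith

/-- **Powers of two and three are far apart.** -/
theorem ridout23 (δ : ℝ) (h0 : 0 < δ) (h1 : δ ≤ 1) : ∃ N : ℕ, ∀ A B : ℕ, 1 ≤ A → 1 ≤ B →
    N < B → ∀ H d : ℕ, (H = 2 ^ A ∧ d + 3 ^ B = 2 ^ A ∨ H = 3 ^ B ∧ d + 2 ^ A = 3 ^ B) →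
    (1 - δ) * Real.log H < Real.log d := by
  have hfin := exc_fin δ h0 h1
  obtain ⟨M, hM⟩ := (hfin.image fun v => v.1 + v.2).bddAbove
  refine ⟨M, fun A B hA hB hN H d hd => ?_⟩
  by_contra hcon
  push Not at hcon
  have h3B : M < 3 ^ B := lt_of_lt_of_le hN (Nat.lt_pow_self (by norm_num)).le
  have pf2 : ((2 : ℕ) ^ A).primeFactors ⊆ {2, 3} := by
    rw [Nat.primeFactors_prime_pow (by omega) Nat.prime_two]
    simp
  have pf3 : ((3 : ℕ) ^ B).primeFactors ⊆ {2, 3} := by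
    rw [Nat.primeFactors_prime_pow (by omega) Nat.prime_three]
    simp
  have hcop : Nat.Coprime (2 ^ A) (3 ^ B) := Nat.Coprime.pow _ _ (by norm_num)
  have hne : (2 : ℕ) ^ A ≠ 3 ^ B := by
    intro h
    have h2 : Even ((2 : ℕ) ^ A) := (Nat.even_pow.mpr ⟨even_two, by omega⟩)
    have h3 : Odd ((3 : ℕ) ^ B) := Odd.pow (by decide)
    rw [h] at h2
    exact (Nat.not_even_iff_odd.mpr h3) h2
  rcases hd with ⟨hH, hd⟩ | ⟨hH, hd⟩
  · have hd0 : 0 < d := by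
      rcases Nat.eq_zero_or_pos d with h | h
      · exact absurd (by omega : (2 : ℕ) ^ A = 3 ^ B) hne
      · exact h
    have hmem : ((3 : ℕ) ^ B, d) ∈ {v : ℕ × ℕ | 0 < v.1 ∧ v.1.Coprime v.2 ∧
        v.1.primeFactors ⊆ {2, 3} ∧ (v.1 + v.2).primeFactors ⊆ {2, 3} ∧ Exc δ v.1 v.2} := by
      refine ⟨by positivity, ?_, pf3, ?_, hd0, ?_⟩
      · have h5 : Nat.Coprime (3 ^ B) (d + 3 ^ B) := by rw [hd]; exact hcop.symm
        exact (Nat.coprime_add_self_right).1 h5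
      · show ((3 : ℕ) ^ B + d).primeFactors ⊆ {2, 3}
        rw [add_comm, hd]; exact pf2
      · have e : ((3 ^ B : ℕ) : ℝ) + (d : ℝ) = ((2 ^ A : ℕ) : ℝ) := by
          rw [← hd]; push_cast; ring
        show Real.log (d : ℝ) ≤ (1 - δ) * Real.log (((3 ^ B : ℕ) : ℝ) + (d : ℝ))
        rw [e, ← hH]; exact hcon
    have h6 := hM ⟨_, hmem, rfl⟩
    simp only at h6
    omega
  · have hd0 : 0 < d := by
      rcases Nat.eq_zero_or_pos d with h | h
      · exact absurd (by omega : (2 : ℕ) ^ A = 3 ^ B) hne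
      · exact h
    have hmem : ((2 : ℕ) ^ A, d) ∈ {v : ℕ × ℕ | 0 < v.1 ∧ v.1.Coprime v.2 ∧
        v.1.primeFactors ⊆ {2, 3} ∧ (v.1 + v.2).primeFactors ⊆ {2, 3} ∧ Exc δ v.1 v.2} := by
      refine ⟨by positivity, ?_, pf2, ?_, hd0, ?_⟩
      · have h5 : Nat.Coprime (2 ^ A) (d + 2 ^ A) := by rw [hd]; exact hcop
        exact (Nat.coprime_add_self_right).1 h5
      · show ((2 : ℕ) ^ A + d).primeFactors ⊆ {2, 3}
        rw [add_comm, hd]; exact pf3
      · have e : ((2 ^ A : ℕ) : ℝ) + (d : ℝ) = ((3 ^ B : ℕ) : ℝ) := by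
          rw [← hd]; push_cast; ring
        show Real.log (d : ℝ) ≤ (1 - δ) * Real.log (((2 ^ A : ℕ) : ℝ) + (d : ℝ))
        rw [e, ← hH]; exact hcon
    have h6 := hM ⟨_, hmem, rfl⟩
    simp only at h6
    omega

end Pool.Agent.H40.COL
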