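import Pool.Agent.H40.COL.Core
import Pool.Agent.H40.COL.Rid

/-!
# The original Collatz permutation: long cycles have many local minima and a small least element
-/

set_option autoImplicit false

namespace Pool.Agent.H40.COL

open Finset

variable {f : ℕ → ℕ}

theorem mod_inj {k a b : ℕ} (h : a % k = b % k) (h1 : a < b + k) (h2 : b < a + k) : a = b := by
  rcases le_total a b with hab | hab
  · have h3 : k ∣ b - a := (Nat.modEq_iff_dvd' hab).1 h
    have h4 := Nat.eq_zero_of_dvd_of_lt h3 (by omega)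
    omega
  · have h3 : k ∣ a - b := (Nat.modEq_iff_dvd' hab).1 h.symm
    have h4 := Nat.eq_zero_of_dvd_of_lt h3 (by omega)
    omega

theorem IsF.lt_of_not (hf : IsF f) {x : ℕ} (hx : 2 ≤ x) (h : ¬ 3 ∣ x) : x < f x := by
  rcases hf.step (x := x) (by omega) with ⟨h1, _⟩ | ⟨_, h1, _⟩
  · exact absurd h1 h
  · omega

theorem IsF.lt_of_even (hf : IsF f) {x : ℕ} (hx : 1 ≤ x) (h : 2 ∣ f x) : f x < x := by
  rcases hf.step hx with ⟨_, h1, _⟩ | ⟨_, _, h1⟩
  · omega
  · exact absurd h h1

open Classical in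
/-- the length of a cycle, its least element and its number of local minima -/
theorem cyc_len (hf : IsF f) {m k j0 : ℕ} (hk : 1 ≤ k) (hper : f^[k] m = m)
    (h2 : ∀ j, 2 ≤ f^[j] m) :
    (k : ℝ) ≤ 12 * 3 ^ ((range k).filter fun j => f^[j + 1] m < f^[j] m ∧
      f^[j + 1] m < f^[j + 2] m).card * Real.log (f^[j0] m) := by
  have hmod : ∀ j, f^[j % k] m = f^[j] m := fun j =>
    Function.IsPeriodicPt.iterate_mod_apply hper j
  have h1 := rev_bound hf (fun t => f^[j0 + k - t] m) k (fun t => h2 _) (by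
    intro t ht
    have e : j0 + k - t = (j0 + k - (t + 1)) + 1 := by omega
    show f (f^[j0 + k - (t + 1)] m) = f^[j0 + k - t] m
    rw [e, Function.iterate_succ_apply']) k le_rfl
  have hc : ((range k).filter fun s => 2 ∣ (fun t => f^[j0 + k - t] m) (s + 1) ∧
      ¬ 3 ∣ (fun t => f^[j0 + k - t] m) (s + 1)).card ≤
      ((range k).filter fun j => f^[j + 1] m < f^[j] m ∧
      f^[j + 1] m < f^[j + 2] m).card := by
    refine Finset.card_le_card_of_injOn (fun s => (j0 + k - (s + 1) + k - 1) % k) ?_ ?_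
    · intro s hs
      have hs := (mem_filter.1 (Finset.mem_coe.1 hs))
      have hsk := mem_range.1 hs.1
      obtain ⟨ha, hb⟩ := hs.2
      simp only at ha hb
      set j := j0 + k - (s + 1) with hj
      have e1 : f^[(j + k - 1) % k] m = f^[j + k - 1] m := hmod _
      have e2 : f^[(j + k - 1) % k + 1] m = f^[j] m := by
        rw [Function.iterate_succ_apply', e1, ← Function.iterate_succ_apply' f]
        have : (j + k - 1).succ = j + k := by omega
        rw [this, ← hmod (j + k), Nat.add_mod_right, hmod]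
      have e3 : f^[(j + k - 1) % k + 2] m = f (f^[j] m) := by
        rw [show (j + k - 1) % k + 2 = ((j + k - 1) % k + 1) + 1 from rfl,
          Function.iterate_succ_apply', e2]
      simp only [coe_filter, mem_range, Set.mem_setOf_eq]
      refine ⟨Nat.mod_lt _ (by omega), ?_, ?_⟩
      · rw [e2]
        have e4 : f (f^[(j + k - 1) % k] m) = f^[j] m := by
          rw [← Function.iterate_succ_apply' f]; exact e2
        have := hf.lt_of_even (x := f^[(j + k - 1) % k] m) (by have := h2 ((j + k - 1) % k); omega)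
          (by rw [e4]; exact ha)
        rwa [e4] at this
      · rw [e2, e3]
        exact hf.lt_of_not (h2 j) hb
    · intro s hs s' hs' he
      have hsk := mem_range.1 (mem_filter.1 (Finset.mem_coe.1 hs)).1
      have hsk' := mem_range.1 (mem_filter.1 (Finset.mem_coe.1 hs')).1
      simp only at he
      have := mod_inj he (by omega) (by omega)
      omega
  have h3 : pot (f^[j0 + k - 0] m) ≤ 12 * Real.log (f^[j0] m) := by
    have e : f^[j0 + k - 0] m = f^[j0] m := by
      rw [Nat.sub_zero, ← hmod (j0 + k), Nat.add_mod_right, hmod]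
    rw [e]
    exact pot_le (by have := h2 j0; omega)
  have h4 := pot_nonneg (f^[j0 + k - k] m)
  have h5 : (k : ℝ) ≤ 3 ^ ((range k).filter fun s => 2 ∣ (fun t => f^[j0 + k - t] m) (s + 1) ∧
      ¬ 3 ∣ (fun t => f^[j0 + k - t] m) (s + 1)).card * pot (f^[j0 + k - 0] m) := by
    linarith
  refine h5.trans ?_
  have h6 : (3 : ℝ) ^ ((range k).filter fun s => 2 ∣ (fun t => f^[j0 + k - t] m) (s + 1) ∧
      ¬ 3 ∣ (fun t => f^[j0 + k - t] m) (s + 1)).card ≤
      3 ^ ((range k).filter fun j => f^[j + 1] m < f^[j] m ∧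
      f^[j + 1] m < f^[j + 2] m).card := pow_le_pow_right₀ (by norm_num) hc
  have h7 : (0 : ℝ) ≤ Real.log (f^[j0] m) := Real.log_natCast_nonneg _
  calc _ ≤ (3 : ℝ) ^ ((range k).filter fun j => f^[j + 1] m < f^[j] m ∧
      f^[j + 1] m < f^[j + 2] m).card * (12 * Real.log (f^[j0] m)) :=
        mul_le_mul h6 h3 (pot_nonneg _) (by positivity)
    _ = _ := by ring

/-- one step, in logarithms -/
theorem step_log (hf : IsF f) {x m0 : ℕ} (hm : 2 ≤ m0) (hx : m0 ≤ x) :
    |Real.log (f x) - Real.log x - (Real.log 2 - Real.log 3 + (if 3 ∣ x then 0 else Real.log 2))| ≤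
      1 / (2 * (m0 : ℝ)) := by
  have hx0 : (0 : ℝ) < x := by exact_mod_cast (by omega : 0 < x)
  have hm0 : (0 : ℝ) < m0 := by exact_mod_cast (by omega : 0 < m0)
  rcases hf.step (x := x) (by omega) with ⟨h, h1, _⟩ | ⟨h, h1, _⟩
  · rw [if_pos h]
    have e : (f x : ℝ) = x * (2 / 3) := by
      have : (3 : ℝ) * f x = 2 * x := by exact_mod_cast h1
      linarith
    rw [e, Real.log_mul hx0.ne' (by norm_num), Real.log_div (by norm_num) (by norm_num)]
    have : Real.log x + (Real.log 2 - Real.log 3) - Real.log x -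
      (Real.log 2 - Real.log 3 + 0) = 0 := by ring
    rw [this, abs_zero]
    positivity
  · rw [if_neg h]
    obtain ⟨ε, he, hε⟩ : ∃ ε : ℝ, |ε| ≤ 1 ∧ 3 * (f x : ℝ) = 4 * x + ε := by
      rcases h1 with h1 | h1
      · exact ⟨1, by norm_num, by exact_mod_cast h1⟩
      · refine ⟨-1, by norm_num, ?_⟩
        have : (3 : ℝ) * f x + 1 = 4 * x := by exact_mod_cast h1
        linarith
    obtain ⟨he1, he2⟩ := abs_le.1 he
    have hx2 : (2 : ℝ) ≤ x := by exact_mod_cast (by omega : 2 ≤ x)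
    have hmx : (m0 : ℝ) ≤ x := by exact_mod_cast hx
    set u : ℝ := ε / (4 * x) with hu
    have hu1 : |u| ≤ 1 / (4 * x) := by
      rw [hu, abs_div, abs_of_pos (by positivity : (0 : ℝ) < 4 * x)]
      exact div_le_div_of_nonneg_right he (by positivity)
    have hu8 : 1 / (4 * (x : ℝ)) ≤ 1 / 8 := by
      apply one_div_le_one_div_of_le (by norm_num); linarith
    obtain ⟨hu2, hu3⟩ := abs_le.1 (hu1.trans hu8)
    have e : (f x : ℝ) = x * (2 * 2 / 3) * (1 + u) := by
      have : (x : ℝ) * u = ε / 4 := by rw [hu]; field_simp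
      have h6 : (f x : ℝ) = (4 * x + ε) / 3 := by linarith
      rw [h6]
      nlinarith
    have hpos : (0 : ℝ) < 1 + u := by linarith
    rw [e, Real.log_mul (by positivity) hpos.ne', Real.log_mul hx0.ne' (by norm_num),
      Real.log_div (by norm_num) (by norm_num), Real.log_mul (by norm_num) (by norm_num)]
    have e2 : Real.log x + (Real.log 2 + Real.log 2 - Real.log 3) + Real.log (1 + u) - Real.log x -
      (Real.log 2 - Real.log 3 + Real.log 2) = Real.log (1 + u) := by ring
    rw [e2]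
    have h7 : Real.log (1 + u) ≤ u := by
      have := Real.log_le_sub_one_of_pos hpos; linarith
    have h8 : -(2 * |u|) ≤ Real.log (1 + u) := by
      have h9 := Real.one_sub_inv_le_log_of_pos hpos
      have h10 : 1 - (1 + u)⁻¹ = u / (1 + u) := by field_simp; ring
      rw [h10] at h9
      have h11 : -(2 * |u|) ≤ u / (1 + u) := by
        rw [le_div_iff₀ hpos]
        rcases abs_cases u with ⟨ha, hb⟩ | ⟨ha, hb⟩ <;> rw [ha] <;> nlinarith
      linarith
    have h12 : 2 * |u| ≤ 1 / (2 * (m0 : ℝ)) := by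
      calc 2 * |u| ≤ 2 * (1 / (4 * (x : ℝ))) := by linarith
        _ = 1 / (2 * (x : ℝ)) := by field_simp; norm_num
        _ ≤ 1 / (2 * (m0 : ℝ)) := by
          apply one_div_le_one_div_of_le (by positivity); linarith
    have h13 : u ≤ |u| := le_abs_self u
    have h14 : 0 ≤ |u| := abs_nonneg u
    exact abs_le.2 ⟨by linarith, by linarith⟩

/-- the equation of a cycle -/
theorem cyc_eq (hf : IsF f) {m k m0 : ℕ} (hper : f^[k] m = m) (hm0 : 2 ≤ m0)
    (h2 : ∀ j, m0 ≤ f^[j] m) : ∃ U : ℕ, U ≤ k ∧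
    |((k + U : ℕ) : ℝ) * Real.log 2 - (k : ℝ) * Real.log 3| ≤ k / (2 * (m0 : ℝ)) := by
  refine ⟨((range k).filter fun j => ¬ 3 ∣ f^[j] m).card,
    (Finset.card_filter_le _ _).trans (by simp), ?_⟩
  have h3 : ∑ j ∈ range k, (Real.log (f^[j + 1] m) - Real.log (f^[j] m)) = 0 := by
    rw [Finset.sum_range_sub (fun j => Real.log (f^[j] m : ℕ)) k, hper]
    simp
  have h4 : ∑ j ∈ range k, (Real.log 2 - Real.log 3 + (if 3 ∣ f^[j] m then 0 else Real.log 2)) =
      ((k + ((range k).filter fun j => ¬ 3 ∣ f^[j] m).card : ℕ) : ℝ) * Real.log 2 -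
        (k : ℝ) * Real.log 3 := by
    rw [Finset.sum_add_distrib, Finset.sum_const, card_range]
    have h5 : ∑ j ∈ range k, (if 3 ∣ f^[j] m then (0 : ℝ) else Real.log 2) =
        (((range k).filter fun j => ¬ 3 ∣ f^[j] m).card : ℝ) * Real.log 2 := by
      have h6 : ∀ j ∈ range k, (if 3 ∣ f^[j] m then (0 : ℝ) else Real.log 2) =
          if ¬ 3 ∣ f^[j] m then Real.log 2 else 0 := by
        intro j _
        by_cases h : 3 ∣ f^[j] m <;> simp [h]
      rw [Finset.sum_congr rfl h6, ← Finset.sum_filter, Finset.sum_const, nsmul_eq_mul]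
    rw [h5, nsmul_eq_mul]
    push_cast
    ring
  have h5 : ((k + ((range k).filter fun j => ¬ 3 ∣ f^[j] m).card : ℕ) : ℝ) * Real.log 2 -
        (k : ℝ) * Real.log 3 = - ∑ j ∈ range k, (Real.log (f^[j + 1] m) - Real.log (f^[j] m) -
        (Real.log 2 - Real.log 3 + (if 3 ∣ f^[j] m then 0 else Real.log 2))) := by
    rw [Finset.sum_sub_distrib, h3, h4]
    ring
  rw [h5, abs_neg]
  calc _ ≤ ∑ j ∈ range k, |Real.log (f^[j + 1] m) - Real.log (f^[j] m) -
        (Real.log 2 - Real.log 3 + (if 3 ∣ f^[j] m then 0 else Real.log 2))| :=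
        Finset.abs_sum_le_sum_abs _ _
    _ ≤ ∑ j ∈ range k, 1 / (2 * (m0 : ℝ)) := by
        refine Finset.sum_le_sum fun j _ => ?_
        have := step_log hf hm0 (h2 j)
        rw [Function.iterate_succ_apply']
        exact this
    _ = k / (2 * (m0 : ℝ)) := by
        rw [Finset.sum_const, card_range, nsmul_eq_mul]; ring

/-- the difference of the powers -/
theorem diff_le {A B : ℕ} {c : ℝ} (h : |(A : ℝ) * Real.log 2 - (B : ℝ) * Real.log 3| ≤ c) :
    ∃ H d : ℕ, (H = 2 ^ A ∧ d + 3 ^ B = 2 ^ A ∨ H = 3 ^ B ∧ d + 2 ^ A = 3 ^ B) ∧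
      (d : ℝ) ≤ H * c := by
  obtain ⟨h1, h2⟩ := abs_le.1 h
  rcases le_total ((3 : ℕ) ^ B) (2 ^ A) with hle | hle
  · refine ⟨2 ^ A, 2 ^ A - 3 ^ B, Or.inl ⟨rfl, by omega⟩, ?_⟩
    rw [Nat.cast_sub hle]
    push_cast
    have h3 : (3 : ℝ) ^ B = 2 ^ A * Real.exp (-((A : ℝ) * Real.log 2 - (B : ℝ) * Real.log 3)) := by
      rw [neg_sub, Real.exp_sub, ← Real.log_pow, ← Real.log_pow, Real.exp_log (by positivity),
        Real.exp_log (by positivity)]
      field_simp
    have h4 := Real.add_one_le_exp (-((A : ℝ) * Real.log 2 - (B : ℝ) * Real.log 3))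
    have h5 : (0 : ℝ) < 2 ^ A := by positivity
    rw [h3]
    nlinarith
  · refine ⟨3 ^ B, 3 ^ B - 2 ^ A, Or.inr ⟨rfl, by omega⟩, ?_⟩
    rw [Nat.cast_sub hle]
    push_cast
    have h3 : (2 : ℝ) ^ A = 3 ^ B * Real.exp ((A : ℝ) * Real.log 2 - (B : ℝ) * Real.log 3) := by
      rw [Real.exp_sub, ← Real.log_pow, ← Real.log_pow, Real.exp_log (by positivity),
        Real.exp_log (by positivity)]
      field_simp
    have h4 := Real.add_one_le_exp ((A : ℝ) * Real.log 2 - (B : ℝ) * Real.log 3)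
    have h5 : (0 : ℝ) < 3 ^ B := by positivity
    rw [h3]
    nlinarith

end Pool.Agent.H40.COL
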