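import Pool.Agent.H40.COL.Fin

/-!
# The original Collatz permutation: the theorem
-/

set_option autoImplicit false

namespace Pool.Agent.H40.COL

open Finset

variable {f : ℕ → ℕ}

theorem exists_min (f : ℕ → ℕ) (m : ℕ) : ∃ j, ∀ i, f^[j] m ≤ f^[i] m := by
  obtain ⟨j, hj⟩ := Nat.sInf_mem (Set.range_nonempty (fun i => f^[i] m))
  refine ⟨j, fun i => ?_⟩
  have : sInf (Set.range fun i => f^[i] m) ≤ f^[i] m := Nat.sInf_le ⟨i, rfl⟩
  simp only at hj
  rw [hj]
  exact this

theorem log_small (L : ℕ) : ∃ M : ℕ, ∀ x : ℕ, M ≤ x → (L : ℝ) * Real.log x ≤ (x : ℝ) ^ (3 / 4 : ℝ) := by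
  have h1 := (isLittleO_log_rpow_atTop (r := 3 / 4) (by norm_num)).bound
    (show (0 : ℝ) < 1 / (L + 1) by positivity)
  obtain ⟨M, hM⟩ := Filter.eventually_atTop.1 h1
  refine ⟨⌈M⌉₊, fun x hx => ?_⟩
  have h2 := hM (x : ℝ) ((Nat.le_ceil M).trans (by exact_mod_cast hx))
  have h3 : (0 : ℝ) ≤ Real.log x := Real.log_natCast_nonneg _
  have h4 : (0 : ℝ) ≤ (x : ℝ) ^ (3 / 4 : ℝ) := by positivity
  rw [Real.norm_of_nonneg h3, Real.norm_of_nonneg h4] at h2
  have h5 : ((L : ℝ) + 1) * Real.log x ≤ (x : ℝ) ^ (3 / 4 : ℝ) := by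
    have h6 : ((L : ℝ) + 1) * Real.log x ≤ (L + 1) * (1 / (L + 1) * (x : ℝ) ^ (3 / 4 : ℝ)) :=
      mul_le_mul_of_nonneg_left h2 (by positivity)
    rwa [← mul_assoc, mul_one_div_cancel (by positivity), one_mul] at h6
  linarith

/-- **In a long cycle the logarithm of the least element is small against the length.** -/
theorem main (hf : IsF f) (L : ℕ) : ∃ B : ℕ, ∀ m k : ℕ, B < m → 1 ≤ k → f^[k] m = m →
    ∀ j, (∀ i, f^[j] m ≤ f^[i] m) → (L : ℝ) * Real.log (f^[j] m) < k := by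
  obtain ⟨N, hN⟩ := ridout23 (1 / (6 * ((L : ℝ) + 1))) (by positivity) (by
    rw [div_le_one (by positivity)]
    have : (0 : ℝ) ≤ L := Nat.cast_nonneg _
    linarith)
  obtain ⟨M, hM⟩ := log_small L
  set M2 : ℕ := M + 4 ^ N * N + 2 with hM2
  refine ⟨2 ^ (L * M2) * M2, fun m k hm hk hper j hj => ?_⟩
  by_contra hcon
  push Not at hcon
  have hm1 : 1 ≤ m := by omega
  have hmod : ∀ i, f^[i % k] m = f^[i] m := fun i =>
    Function.IsPeriodicPt.iterate_mod_apply hper i
  set m0 := f^[j] m with hm0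
  have hm01 : 1 ≤ m0 := hf.iter_pos hm1 j
  have hmm : m ≤ 2 ^ k * m0 := by
    have hlt : j % k < k := Nat.mod_lt _ (by omega)
    have e : f^[k - j % k] m0 = m := by
      rw [hm0, ← hmod j, ← Function.iterate_add_apply,
        show k - j % k + j % k = k by omega, hper]
    calc m = f^[k - j % k] m0 := e.symm
      _ ≤ 2 ^ (k - j % k) * m0 := hf.iter_le hm01 _
      _ ≤ 2 ^ k * m0 := Nat.mul_le_mul_right _ (Nat.pow_le_pow_right (by norm_num) (by omega))
  suffices hs : m0 ≤ M2 by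
    have h1 : k ≤ L * M2 := by
      have h2 : Real.log (m0 : ℝ) ≤ M2 := by
        have h3 := Real.log_le_sub_one_of_pos (show (0 : ℝ) < m0 by exact_mod_cast hm01)
        have h4 : (m0 : ℝ) ≤ M2 := by exact_mod_cast hs
        linarith
      have h5 : (k : ℝ) ≤ L * M2 :=
        hcon.trans (mul_le_mul_of_nonneg_left h2 (Nat.cast_nonneg _))
      exact_mod_cast h5
    have h6 : m ≤ 2 ^ (L * M2) * M2 :=
      hmm.trans (Nat.mul_le_mul (Nat.pow_le_pow_right (by norm_num) h1) hs)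
    omega
  by_contra hbig
  push Not at hbig
  have h02 : 2 ≤ m0 := by omega
  obtain ⟨U, hU, hcy⟩ := cyc_eq hf hper h02 (fun i => hj i)
  obtain ⟨H, d, hHd, hd⟩ := diff_le hcy
  have hm0r : (0 : ℝ) < m0 := by exact_mod_cast hm01
  have hH4 : H ≤ 4 ^ k := by
    rcases hHd with ⟨h, _⟩ | ⟨h, _⟩ <;> rw [h]
    · calc 2 ^ (k + U) ≤ 2 ^ (2 * k) := Nat.pow_le_pow_right (by norm_num) (by omega)
        _ = 4 ^ k := by rw [pow_mul]; norm_num
    · exact Nat.pow_le_pow_left (by norm_num) k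
  have hH1 : 1 ≤ H := by
    rcases hHd with ⟨h, _⟩ | ⟨h, _⟩ <;> rw [h] <;> exact Nat.one_le_pow _ _ (by norm_num)
  have hd1 : 1 ≤ d := by
    rcases Nat.eq_zero_or_pos d with h | h
    · exfalso
      have hne : (2 : ℕ) ^ (k + U) ≠ 3 ^ k := by
        intro h'
        have h2 : Even ((2 : ℕ) ^ (k + U)) := (Nat.even_pow.mpr ⟨even_two, by omega⟩)
        have h3 : Odd ((3 : ℕ) ^ k) := Odd.pow (by decide)
        rw [h'] at h2
        exact (Nat.not_even_iff_odd.mpr h3) h2
      rcases hHd with ⟨_, h4⟩ | ⟨_, h4⟩ <;> omega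
    · exact h
  by_cases hkN : N < k
  · have h1 := hN (k + U) k (by omega) hk hkN H d hHd
    have h2 : (k : ℝ) ≤ (m0 : ℝ) ^ (3 / 4 : ℝ) := hcon.trans (hM m0 (by omega))
    have h3 : Real.log d ≤ Real.log H + Real.log ((k : ℝ) / (2 * m0)) := by
      have hkr : (0 : ℝ) < k := by exact_mod_cast hk
      have hHr : (0 : ℝ) < H := by exact_mod_cast hH1
      rw [← Real.log_mul hHr.ne' (by positivity)]
      exact Real.log_le_log (by exact_mod_cast hd1) hd
    have h4 : Real.log ((k : ℝ) / (2 * m0)) ≤ - (1 / 4) * Real.log m0 := by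
      have hkr : (0 : ℝ) < k := by exact_mod_cast hk
      rw [Real.log_div hkr.ne' (by positivity), Real.log_mul (by norm_num) hm0r.ne']
      have h5 : Real.log k ≤ 3 / 4 * Real.log m0 := by
        rw [← Real.log_rpow hm0r]
        exact Real.log_le_log hkr h2
      have h6 := log_two_gt
      linarith
    have h5 : Real.log H ≤ 1.4 * (L * Real.log m0) := by
      have h6 : Real.log (H : ℝ) ≤ k * Real.log 4 := by
        rw [← Real.log_pow]
        exact Real.log_le_log (by exact_mod_cast hH1) (by exact_mod_cast hH4)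
      have h7 : Real.log 4 ≤ 1.4 := by
        have h8 : Real.log 4 = 2 * Real.log 2 := by
          rw [show (4 : ℝ) = 2 ^ 2 by norm_num, Real.log_pow]; norm_num
        rw [h8]
        have := log_two_lt
        linarith
      have h8 : (0 : ℝ) ≤ k := Nat.cast_nonneg _
      calc Real.log (H : ℝ) ≤ k * Real.log 4 := h6
        _ ≤ k * 1.4 := mul_le_mul_of_nonneg_left h7 h8
        _ ≤ (L * Real.log m0) * 1.4 := mul_le_mul_of_nonneg_right hcon (by norm_num)
        _ = _ := by ring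
    have h9 : 1 / (6 * ((L : ℝ) + 1)) * Real.log H ≤ 1 / 4 * Real.log m0 := by
      have hl : (0 : ℝ) ≤ Real.log m0 := Real.log_natCast_nonneg _
      have hL : (0 : ℝ) ≤ L := Nat.cast_nonneg _
      rw [one_div, inv_mul_le_iff₀ (by positivity)]
      nlinarith
    nlinarith
  · push Not at hkN
    have h1 : (1 : ℝ) ≤ 4 ^ N * N / (2 * m0) := by
      calc (1 : ℝ) ≤ d := by exact_mod_cast hd1
        _ ≤ H * (k / (2 * m0)) := hd
        _ ≤ 4 ^ N * (N / (2 * m0)) := by
          have h2 : (H : ℝ) ≤ 4 ^ N := by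
            calc (H : ℝ) ≤ 4 ^ k := by exact_mod_cast hH4
              _ ≤ 4 ^ N := pow_le_pow_right₀ (by norm_num) hkN
          have h3 : (k : ℝ) / (2 * m0) ≤ N / (2 * m0) :=
            div_le_div_of_nonneg_right (by exact_mod_cast hkN) (by positivity)
          exact mul_le_mul h2 h3 (by positivity) (by positivity)
        _ = 4 ^ N * N / (2 * m0) := by ring
    rw [le_div_iff₀ (by positivity)] at h1
    have h2 : (M2 : ℝ) < m0 := by exact_mod_cast hbig
    have h3 : (M2 : ℝ) = M + 4 ^ N * N + 2 := by rw [hM2]; push_cast; ring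
    have h4 : (0 : ℝ) ≤ M := Nat.cast_nonneg _
    linarith

open Classical in
/-- **Theorem.** -/
theorem cycles (hf : IsF f) (K : ℕ) : ∃ B : ℕ, ∀ m k : ℕ, B < m → 1 ≤ k → f^[k] m = m →
    K < ((range k).filter fun j => f^[j + 1] m < f^[j] m ∧ f^[j + 1] m < f^[j + 2] m).card ∧
    ∃ j, (K : ℝ) * Real.log (f^[j] m) < k := by
  obtain ⟨B, hB⟩ := main hf (max K (12 * 3 ^ K))
  refine ⟨max B 1, fun m k hm hk hper => ?_⟩
  have hm1 : 1 < m := lt_of_le_of_lt (le_max_right _ _) hm
  obtain ⟨j, hj⟩ := exists_min f m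
  have h1 := hB m k (lt_of_le_of_lt (le_max_left _ _) hm) hk hper j hj
  have hl : (0 : ℝ) ≤ Real.log (f^[j] m) := Real.log_natCast_nonneg _
  have h2 : ∀ i, 2 ≤ f^[i] m := by
    intro i
    by_contra hlt
    have h3 : f^[i] m = 1 := by
      have := hf.iter_pos (x := m) (by omega) i
      omega
    have hf1 : f 1 = 1 := by have := hf.h2 1 le_rfl; simpa using this
    have h4 : ∀ t, f^[t] 1 = 1 := fun t => Function.iterate_fixed hf1 t
    have h5 : f^[k * (i + 1)] m = m := Function.IsPeriodicPt.const_mul hper (i + 1) |> fun h => by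
      have := h
      rwa [mul_comm] at this
    have h6 : k * (i + 1) = (k * (i + 1) - i) + i := by
      have : i ≤ k * (i + 1) := by nlinarith
      omega
    rw [h6, Function.iterate_add_apply, h3, h4] at h5
    omega
  refine ⟨?_, j, ?_⟩
  · by_contra hcon
    push Not at hcon
    have h3 := cyc_len hf (j0 := j) hk hper h2
    have h4 : (k : ℝ) ≤ 12 * 3 ^ K * Real.log (f^[j] m) := by
      refine h3.trans (mul_le_mul_of_nonneg_right ?_ hl)
      exact mul_le_mul_of_nonneg_left (pow_le_pow_right₀ (by norm_num) hcon) (by norm_num)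
    have h5 : (12 * 3 ^ K : ℝ) ≤ ((max K (12 * 3 ^ K) : ℕ) : ℝ) := by
      have : 12 * 3 ^ K ≤ max K (12 * 3 ^ K) := le_max_right _ _
      exact_mod_cast this
    have h6 := mul_le_mul_of_nonneg_right h5 hl
    linarith
  · have h5 : (K : ℝ) ≤ ((max K (12 * 3 ^ K) : ℕ) : ℝ) := by
      exact_mod_cast le_max_left _ _
    have h6 := mul_le_mul_of_nonneg_right h5 hl
    linarith

end Pool.Agent.H40.COL
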